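import Pool.Agent.helper14.KusDefs

/-!
# Small perturbations of the identity with general coefficient functions are deformations
-/

open Set Metric MeasureTheory
open scoped NNReal ENNReal ContDiff

namespace Kusner.H45

/-- A perturbation of the identity with general coefficient functions. -/
noncomputable def gpert {ι : Type*} [Fintype ι] (V : ι → E3 → E3) (α : ι → ℝ → ℝ) (t : ℝ)
    (x : E3) : E3 :=
  x + ∑ i, α i t • V i x

lemma det_one_add_ne_zero {T : E3 →L[ℝ] E3} (hT : ‖T‖ < 1) :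
    (ContinuousLinearMap.id ℝ E3 + T).det ≠ 0 := by
  intro h0
  have h1 := LinearMap.bot_lt_ker_of_det_eq_zero
    (f := ((ContinuousLinearMap.id ℝ E3 + T : E3 →L[ℝ] E3) : E3 →ₗ[ℝ] E3)) h0
  obtain ⟨v, hv, hv0⟩ := (Submodule.ne_bot_iff _).mp h1.ne'
  have h2 : v + T v = 0 := by simpa using hv
  have h3 : ‖v‖ = ‖T v‖ := by
    rw [eq_neg_of_add_eq_zero_left h2, norm_neg]
    rw [← eq_neg_of_add_eq_zero_left h2]
  have h4 : ‖T v‖ ≤ ‖T‖ * ‖v‖ := T.le_opNorm v
  have h5 : 0 < ‖v‖ := norm_pos_iff.mpr hv0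
  nlinarith

lemma det_one_add_pos {T : E3 →L[ℝ] E3} (hT : ‖T‖ < 1) :
    0 < (ContinuousLinearMap.id ℝ E3 + T).det := by
  by_contra hneg
  push Not at hneg
  have hcont : ContinuousOn (fun s : ℝ => (ContinuousLinearMap.id ℝ E3 + s • T).det) (Icc 0 1) := by
    have h1 : Continuous fun s : ℝ => (ContinuousLinearMap.id ℝ E3 + s • T) := by fun_prop
    exact (ContinuousLinearMap.continuous_det.comp h1).continuousOn
  have h2 := intermediate_value_Icc' (zero_le_one' ℝ) hcont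
  have h3 : (0 : ℝ) ∈ Icc ((ContinuousLinearMap.id ℝ E3 + (1 : ℝ) • T).det)
      ((ContinuousLinearMap.id ℝ E3 + (0 : ℝ) • T).det) := by
    constructor
    · simpa using hneg
    · simp [ContinuousLinearMap.det]
  obtain ⟨s, hs, hs0⟩ := h2 h3
  refine det_one_add_ne_zero (T := s • T) ?_ hs0
  rw [norm_smul, Real.norm_eq_abs, abs_of_nonneg hs.1]
  nlinarith [norm_nonneg T, hs.1, hs.2]

theorem isDeformation_gpert {ι : Type*} [Fintype ι] (V : ι → E3 → E3)
    (hV : ∀ i, ContDiff ℝ ∞ (V i)) (hVc : ∀ i, HasCompactSupport (V i)) :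
    ∃ η : ℝ, 0 < η ∧ ∀ α : ι → ℝ → ℝ, (∀ i, ContDiff ℝ ∞ (α i)) → (∀ i, α i 0 = 0) →
      (∀ i t, |α i t| ≤ η) → (∀ i t t', |α i t - α i t'| ≤ η * |t - t'|) →
      IsDeformation (gpert V α) ∧ ∀ t x, 0 < (fderiv ℝ (gpert V α t) x).det := by
  -- bounds
  have hL : ∀ i, ∃ C : ℝ≥0, LipschitzWith C (V i) := fun i =>
    (hV i).lipschitzWith_of_hasCompactSupport (𝕂 := ℝ) (hVc i) (by simp)
  choose C hC using hL
  have hB : ∀ i, ∃ B : ℝ, ∀ x, ‖V i x‖ ≤ B := fun i =>
    (hV i).continuous.bounded_above_of_compact_support (hVc i)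
  choose B hB using hB
  have hS : ∀ i, ∃ R : ℝ, 0 < R ∧ ∀ x : E3, R ≤ ‖x‖ → V i x = 0 := fun i =>
    (hVc i).exists_pos_le_norm
  choose R hR0 hR using hS
  have hB0 : ∀ i, 0 ≤ B i := fun i => (norm_nonneg _).trans (hB i 0)
  set M : ℝ := ∑ i, (C i + B i) with hM
  have hM0 : 0 ≤ M := Finset.sum_nonneg fun i _ => add_nonneg (C i).2 (hB0 i)
  set η : ℝ := 1 / (2 * (M + 1)) with hη
  have hηpos : 0 < η := by positivity
  have hηM : η * M ≤ 1 / 2 := by
    rw [hη]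
    rw [div_mul_eq_mul_div, div_le_div_iff₀ (by positivity) (by norm_num)]
    nlinarith
  refine ⟨η, hηpos, ?_⟩
  intro α hα hα0 hαb hαl
  -- the map on space-time
  set G : ℝ × E3 → E3 := fun p => ∑ i, α i p.1 • V i p.2 with hG
  have hGs : ContDiff ℝ ∞ G := by
    refine ContDiff.sum fun i _ => ?_
    exact ((hα i).comp contDiff_fst).smul ((hV i).comp contDiff_snd)
  have hGl : LipschitzWith (1 / 2 : ℝ≥0) G := by
    refine LipschitzWith.of_dist_le_mul fun p q => ?_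
    rw [dist_eq_norm, dist_eq_norm]
    have hp1 : |p.1 - q.1| ≤ ‖p - q‖ := by
      have := norm_fst_le (p - q)
      simpa using this
    have hp2 : ‖p.2 - q.2‖ ≤ ‖p - q‖ := by
      have := norm_snd_le (p - q)
      simpa using this
    have hterm : ∀ i, ‖α i p.1 • V i p.2 - α i q.1 • V i q.2‖ ≤
        η * (C i + B i) * ‖p - q‖ := by
      intro i
      have : α i p.1 • V i p.2 - α i q.1 • V i q.2 =
          α i p.1 • (V i p.2 - V i q.2) + (α i p.1 - α i q.1) • V i q.2 := by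
        rw [smul_sub, sub_smul]; abel
      rw [this]
      refine (norm_add_le _ _).trans ?_
      rw [norm_smul, norm_smul, Real.norm_eq_abs, Real.norm_eq_abs]
      have h1 := hαb i p.1
      have h2 := hαl i p.1 q.1
      have h3 : ‖V i p.2 - V i q.2‖ ≤ C i * ‖p.2 - q.2‖ := (hC i).norm_sub_le _ _
      have h4 := hB i q.2
      have hCi : (0 : ℝ) ≤ C i := (C i).2
      calc |α i p.1| * ‖V i p.2 - V i q.2‖ + |α i p.1 - α i q.1| * ‖V i q.2‖
          ≤ η * (C i * ‖p - q‖) + (η * ‖p - q‖) * B i := by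
            have h3' : ‖V i p.2 - V i q.2‖ ≤ C i * ‖p - q‖ :=
              h3.trans (by gcongr)
            have h2' : |α i p.1 - α i q.1| ≤ η * ‖p - q‖ :=
              h2.trans (by gcongr)
            gcongr
        _ = η * (C i + B i) * ‖p - q‖ := by ring
    calc ‖G p - G q‖ = ‖∑ i, (α i p.1 • V i p.2 - α i q.1 • V i q.2)‖ := by
          rw [Finset.sum_sub_distrib]
      _ ≤ ∑ i, η * (C i + B i) * ‖p - q‖ :=
          (norm_sum_le _ _).trans (Finset.sum_le_sum fun i _ => hterm i)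
      _ = η * M * ‖p - q‖ := by rw [hM, Finset.mul_sum, Finset.sum_mul]
      _ ≤ ((1 / 2 : ℝ≥0) : ℝ) * ‖p - q‖ := by
          have : ((1 / 2 : ℝ≥0) : ℝ) = 1 / 2 := by simp
          rw [this]
          gcongr
  set F : ℝ × E3 → ℝ × E3 := fun p => (p.1, p.2 + G p) with hF
  have hFs : ContDiff ℝ ∞ F := contDiff_fst.prodMk (contDiff_snd.add hGs)
  have happ : ApproximatesLinearOn F
      ((ContinuousLinearEquiv.refl ℝ (ℝ × E3) : (ℝ × E3) ≃L[ℝ] (ℝ × E3)) :
        (ℝ × E3) →L[ℝ] (ℝ × E3)) univ (1 / 2 : ℝ≥0) := by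
    intro p _ q _
    have h1 : F p - F q - ((ContinuousLinearEquiv.refl ℝ (ℝ × E3) :
        (ℝ × E3) ≃L[ℝ] (ℝ × E3)) : (ℝ × E3) →L[ℝ] (ℝ × E3)) (p - q) = (0, G p - G q) := by
      ext1
      · simp [hF]
      · simp [hF]
        abel
    rw [h1]
    have h2 := hGl.norm_sub_le p q
    calc ‖((0 : ℝ), G p - G q)‖ = ‖G p - G q‖ := by simp [Prod.norm_def]
      _ ≤ _ := h2
  have hc : Subsingleton (ℝ × E3) ∨ (1 / 2 : ℝ≥0) <
      ‖(((ContinuousLinearEquiv.refl ℝ (ℝ × E3)).symm : (ℝ × E3) ≃L[ℝ] (ℝ × E3)) :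
        (ℝ × E3) →L[ℝ] (ℝ × E3))‖₊⁻¹ := by
    right
    have : ‖(((ContinuousLinearEquiv.refl ℝ (ℝ × E3)).symm : (ℝ × E3) ≃L[ℝ] (ℝ × E3)) :
        (ℝ × E3) →L[ℝ] (ℝ × E3))‖₊ = 1 := by
      have : (((ContinuousLinearEquiv.refl ℝ (ℝ × E3)).symm : (ℝ × E3) ≃L[ℝ] (ℝ × E3)) :
        (ℝ × E3) →L[ℝ] (ℝ × E3)) = ContinuousLinearMap.id ℝ (ℝ × E3) := rfl
      rw [this]
      exact ContinuousLinearMap.nnnorm_id
    rw [this]
    simp only [inv_one]
    rw [div_lt_one (by norm_num)]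
    norm_num
  set H : (ℝ × E3) ≃ₜ (ℝ × E3) := happ.toHomeomorph F hc with hH
  have hHF : ∀ p, H p = F p := fun p => rfl
  -- the derivative is invertible
  have hder : ∀ p, ∃ e : (ℝ × E3) ≃L[ℝ] (ℝ × E3),
      HasFDerivAt H (e : (ℝ × E3) →L[ℝ] (ℝ × E3)) p := by
    intro p
    have hGd : HasFDerivAt G (fderiv ℝ G p) p :=
      (hGs.differentiable (by simp) p).hasFDerivAt
    have hGn : ‖fderiv ℝ G p‖ ≤ 1 / 2 := by
      have := norm_fderiv_le_of_lipschitz ℝ (x₀ := p) hGl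
      simpa using this
    set T : (ℝ × E3) →L[ℝ] (ℝ × E3) :=
      -((ContinuousLinearMap.inr ℝ ℝ E3).comp (fderiv ℝ G p)) with hT
    have hTn : ‖T‖ < 1 := by
      rw [hT, norm_neg]
      refine (ContinuousLinearMap.opNorm_comp_le _ _).trans_lt ?_
      have h1 : ‖ContinuousLinearMap.inr ℝ ℝ E3‖ ≤ 1 := by
        refine ContinuousLinearMap.opNorm_le_bound _ zero_le_one fun x => ?_
        simp [Prod.norm_def]
      nlinarith [norm_nonneg (fderiv ℝ G p), norm_nonneg (ContinuousLinearMap.inr ℝ ℝ E3)]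
    refine ⟨ContinuousLinearEquiv.unitsEquiv ℝ _ (Units.oneSub T hTn), ?_⟩
    have h2 : HasFDerivAt F ((ContinuousLinearMap.fst ℝ ℝ E3).prod
        (ContinuousLinearMap.snd ℝ ℝ E3 + fderiv ℝ G p)) p :=
      hasFDerivAt_fst.prodMk (hasFDerivAt_snd.add hGd)
    have h3 : ((ContinuousLinearEquiv.unitsEquiv ℝ (ℝ × E3) (Units.oneSub T hTn) :
        (ℝ × E3) ≃L[ℝ] (ℝ × E3)) : (ℝ × E3) →L[ℝ] (ℝ × E3)) =
        ((ContinuousLinearMap.fst ℝ ℝ E3).prod
        (ContinuousLinearMap.snd ℝ ℝ E3 + fderiv ℝ G p)) := by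
      refine ContinuousLinearMap.ext fun v => ?_
      have h4 : ((ContinuousLinearEquiv.unitsEquiv ℝ (ℝ × E3) (Units.oneSub T hTn) :
        (ℝ × E3) ≃L[ℝ] (ℝ × E3)) : (ℝ × E3) →L[ℝ] (ℝ × E3)) v =
          ((Units.oneSub T hTn : ((ℝ × E3) →L[ℝ] (ℝ × E3))ˣ) :
            (ℝ × E3) →L[ℝ] (ℝ × E3)) v := rfl
      rw [h4]
      have h5 : ((Units.oneSub T hTn : ((ℝ × E3) →L[ℝ] (ℝ × E3))ˣ) :
            (ℝ × E3) →L[ℝ] (ℝ × E3)) = 1 - T := rfl
      rw [h5, hT]
      ext1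
      · simp
      · simp
    rw [h3]
    exact h2
  choose e he using hder
  have hHs : ContDiff ℝ ∞ H := hFs
  have hinv : ContDiff ℝ ∞ H.symm := H.contDiff_symm he hHs
  have hfst : ∀ p, (H.symm p).1 = p.1 := by
    intro p
    have h1 : H (H.symm p) = p := H.apply_symm_apply p
    have h2 : (H (H.symm p)).1 = (H.symm p).1 := rfl
    rw [← h2, h1]
  refine ⟨⟨?_, ?_, ⟨fun t x => (H.symm (t, x)).2, ?_, ?_, ?_⟩, ?_⟩, ?_⟩
  · exact contDiff_snd.comp hFs
  · intro x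
    simp [gpert, hα0]
  · exact contDiff_snd.comp hinv
  · intro t x
    have h1 : H (t, x) = (t, gpert V α t x) := rfl
    have h2 : H.symm (t, gpert V α t x) = (t, x) := by
      rw [← h1, H.symm_apply_apply]
    simp only [h2]
  · intro t x
    have h1 : H (H.symm (t, x)) = (t, x) := H.apply_symm_apply _
    have h2 : H.symm (t, x) = (t, (H.symm (t, x)).2) := by
      ext1
      · exact hfst _
      · rfl
    have h3 : H (t, (H.symm (t, x)).2) = (t, gpert V α t (H.symm (t, x)).2) := rfl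
    rw [h2, h3] at h1
    exact (Prod.ext_iff.mp h1).2
  · refine ⟨∑ i, R i, fun t x hx => ?_⟩
    have hz : ∀ i, V i x = 0 := fun i => by
      refine hR i x (le_trans ?_ hx.le)
      exact Finset.single_le_sum (fun j _ => (hR0 j).le) (Finset.mem_univ i)
    simp [gpert, hz]
  · intro t x
    have hGt : LipschitzWith (1 / 2 : ℝ≥0) (fun x => G (t, x)) := by
      have := hGl.comp (LipschitzWith.prodMk_left (α := ℝ) (β := E3) t)
      rw [mul_one] at this
      exact this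
    have hGts : ContDiff ℝ ∞ (fun x => G (t, x)) := hGs.comp (contDiff_prodMk_right t)
    have h1 : fderiv ℝ (gpert V α t) x =
        ContinuousLinearMap.id ℝ E3 + fderiv ℝ (fun x => G (t, x)) x := by
      have h2 : HasFDerivAt (gpert V α t)
          (ContinuousLinearMap.id ℝ E3 + fderiv ℝ (fun x => G (t, x)) x) x :=
        (hasFDerivAt_id x).add (hGts.differentiable (by simp) x).hasFDerivAt
      exact h2.fderiv
    rw [h1]
    refine det_one_add_pos ?_
    have := norm_fderiv_le_of_lipschitz ℝ (x₀ := x) hGt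
    refine this.trans_lt ?_
    norm_num

end Kusner.H45
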