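import Pool.Agent.helper14.KusDefs

/-!
# Compactly supported fields with prescribed fluxes through disjoint open sets
-/

open Set Metric MeasureTheory
open scoped NNReal ENNReal ContDiff

namespace Kusner.H45

lemma deriv_smoothTransition_nonneg (u : ℝ) : 0 ≤ deriv Real.smoothTransition u :=
  Real.smoothTransition.monotone.deriv_nonneg

lemma deriv_smoothTransition_of_neg {u : ℝ} (h : u < 0) : deriv Real.smoothTransition u = 0 := by
  have h1 : Real.smoothTransition =ᶠ[nhds u] fun _ => (0 : ℝ) := by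
    filter_upwards [Iio_mem_nhds h] with v hv
    exact Real.smoothTransition.zero_of_nonpos (le_of_lt hv)
  rw [h1.deriv_eq]; simp

lemma deriv_smoothTransition_of_gt {u : ℝ} (h : 1 < u) : deriv Real.smoothTransition u = 0 := by
  have h1 : Real.smoothTransition =ᶠ[nhds u] fun _ => (1 : ℝ) := by
    filter_upwards [Ioi_mem_nhds h] with v hv
    exact Real.smoothTransition.one_of_one_le (le_of_lt hv)
  rw [h1.deriv_eq]; simp

lemma exists_deriv_smoothTransition_pos : ∃ u ∈ Ioo (0 : ℝ) 1,
    0 < deriv Real.smoothTransition u := by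
  obtain ⟨u, hu, h⟩ := exists_deriv_eq_slope Real.smoothTransition (a := 0) (b := 1) (by norm_num)
    Real.smoothTransition.continuous.continuousOn
    ((Real.smoothTransition.contDiff (n := 1)).differentiable (by simp)).differentiableOn
  refine ⟨u, hu, ?_⟩
  rw [h, Real.smoothTransition.zero, Real.smoothTransition.one]
  norm_num

/-- A bump function on the line, positive exactly on `(-1, 1)`. -/
noncomputable def bmp (u : ℝ) : ℝ := Real.smoothTransition (1 + u) * Real.smoothTransition (1 - u)

lemma bmp_contDiff : ContDiff ℝ ∞ bmp := by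
  unfold bmp
  exact (Real.smoothTransition.contDiff.comp (contDiff_const.add contDiff_id)).mul
    (Real.smoothTransition.contDiff.comp (contDiff_const.sub contDiff_id))

lemma bmp_nonneg (u : ℝ) : 0 ≤ bmp u :=
  mul_nonneg (Real.smoothTransition.nonneg _) (Real.smoothTransition.nonneg _)

lemma bmp_eq_zero {u : ℝ} (h : 1 ≤ |u|) : bmp u = 0 := by
  unfold bmp
  rcases le_abs.mp h with h | h
  · rw [Real.smoothTransition.zero_of_nonpos (x := 1 - u) (by linarith), mul_zero]
  · rw [Real.smoothTransition.zero_of_nonpos (x := 1 + u) (by linarith), zero_mul]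

lemma bmp_zero_pos : 0 < bmp 0 := by
  unfold bmp
  exact mul_pos (Real.smoothTransition.pos_of_pos (by norm_num))
    (Real.smoothTransition.pos_of_pos (by norm_num))

/-- The plateau function: rises on `(0, 1)`, falls on `(S, S + 1)`. -/
noncomputable def plat (S : ℝ) (u : ℝ) : ℝ :=
  Real.smoothTransition u - Real.smoothTransition (u - S)

lemma plat_contDiff (S : ℝ) : ContDiff ℝ ∞ (plat S) := by
  unfold plat
  exact Real.smoothTransition.contDiff.sub
    (Real.smoothTransition.contDiff.comp (contDiff_id.sub contDiff_const))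

lemma plat_of_nonpos {S u : ℝ} (hS : 0 ≤ S) (hu : u ≤ 0) : plat S u = 0 := by
  unfold plat
  rw [Real.smoothTransition.zero_of_nonpos hu, Real.smoothTransition.zero_of_nonpos (by linarith),
    sub_zero]

lemma plat_of_ge {S u : ℝ} (hS : 0 ≤ S) (hu : S + 1 ≤ u) : plat S u = 0 := by
  unfold plat
  rw [Real.smoothTransition.one_of_one_le (by linarith),
    Real.smoothTransition.one_of_one_le (by linarith), sub_self]

lemma deriv_plat {S u : ℝ} (h : u < S) : deriv (plat S) u = deriv Real.smoothTransition u := by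
  have h1 : plat S =ᶠ[nhds u] Real.smoothTransition := by
    filter_upwards [Iio_mem_nhds h] with v hv
    unfold plat
    rw [Real.smoothTransition.zero_of_nonpos (x := v - S) (by simp only [mem_Iio] at hv; linarith),
      sub_zero]
  rw [h1.deriv_eq]

/-- The scalar function whose derivative in the first direction is the density. -/
noncomputable def hfun (c : E3) (r S : ℝ) (x : E3) : ℝ :=
  plat S ((x 0 - c 0) / r) * (bmp ((x 1 - c 1) / r) * bmp ((x 2 - c 2) / r))

/-- The density. -/
noncomputable def gden (c : E3) (r : ℝ) (x : E3) : ℝ :=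
  deriv Real.smoothTransition ((x 0 - c 0) / r) / r *
    (bmp ((x 1 - c 1) / r) * bmp ((x 2 - c 2) / r))

lemma coord_contDiff (i : Fin 3) : ContDiff ℝ ∞ (fun x : E3 => x i) :=
  contDiff_euclidean.mp contDiff_id i

lemma hfun_contDiff (c : E3) (r S : ℝ) : ContDiff ℝ ∞ (hfun c r S) := by
  unfold hfun
  have h : ∀ i : Fin 3, ContDiff ℝ ∞ (fun x : E3 => (x i - c i) / r) := fun i =>
    ((coord_contDiff i).sub contDiff_const).div_const r
  exact ((plat_contDiff S).comp (h 0)).mul
    ((bmp_contDiff.comp (h 1)).mul (bmp_contDiff.comp (h 2)))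

lemma abs_coord_le (x : E3) (i : Fin 3) : |x i| ≤ ‖x‖ := by
  have := PiLp.norm_apply_le x i
  simpa using this

lemma norm_le_of_coord {x : E3} {a : ℝ} (ha : 0 ≤ a) (h : ∀ i, |x i| ≤ a) : ‖x‖ ≤ 2 * a := by
  rw [EuclideanSpace.norm_eq]
  have h1 : ∑ i, ‖x i‖ ^ 2 ≤ (2 * a) ^ 2 := by
    rw [Fin.sum_univ_three]
    have h0 := pow_le_pow_left₀ (abs_nonneg _) (h 0) 2
    have h1 := pow_le_pow_left₀ (abs_nonneg _) (h 1) 2
    have h2 := pow_le_pow_left₀ (abs_nonneg _) (h 2) 2
    simp only [Real.norm_eq_abs]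
    nlinarith [sq_nonneg a]
  calc Real.sqrt (∑ i, ‖x i‖ ^ 2) ≤ Real.sqrt ((2 * a) ^ 2) := Real.sqrt_le_sqrt h1
    _ = 2 * a := Real.sqrt_sq (by linarith)

lemma hfun_compact (c : E3) {r S : ℝ} (hr : 0 < r) (hS : 0 ≤ S) :
    HasCompactSupport (hfun c r S) := by
  refine HasCompactSupport.of_support_subset_isCompact
    (isCompact_closedBall c (2 * ((S + 1) * r))) ?_
  intro x hx
  rw [Function.mem_support] at hx
  rw [mem_closedBall, dist_eq_norm]
  refine norm_le_of_coord (by positivity) fun i => ?_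
  have hb : ∀ j : Fin 3, bmp ((x j - c j) / r) ≠ 0 → |x j - c j| ≤ (S + 1) * r := by
    intro j hj
    by_contra hcon
    push Not at hcon
    apply hj
    apply bmp_eq_zero
    rw [abs_div, abs_of_pos hr, le_div_iff₀ hr]
    nlinarith [mul_nonneg hS hr.le]
  unfold hfun at hx
  have hx0 := left_ne_zero_of_mul hx
  have hx1 := left_ne_zero_of_mul (right_ne_zero_of_mul hx)
  have hx2 := right_ne_zero_of_mul (right_ne_zero_of_mul hx)
  fin_cases i
  · simp only [Fin.zero_eta, PiLp.sub_apply]
    have h1 : 0 < (x 0 - c 0) / r := by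
      by_contra hcon
      push Not at hcon
      exact hx0 (plat_of_nonpos hS hcon)
    have h2 : (x 0 - c 0) / r < S + 1 := by
      by_contra hcon
      push Not at hcon
      exact hx0 (plat_of_ge hS hcon)
    rw [lt_div_iff₀ hr, zero_mul] at h1
    rw [div_lt_iff₀ hr] at h2
    rw [abs_of_pos h1]
    exact h2.le
  · exact hb 1 hx1
  · exact hb 2 hx2

lemma hasFDerivAt_coord (i : Fin 3) (x : E3) :
    HasFDerivAt (fun y : E3 => y i) (EuclideanSpace.proj i : E3 →L[ℝ] ℝ) x :=
  (EuclideanSpace.proj i : E3 →L[ℝ] ℝ).hasFDerivAt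

lemma fderiv_hfun (c : E3) {r S : ℝ} {x : E3} (hx : (x 0 - c 0) / r < S) :
    fderiv ℝ (hfun c r S) x (EuclideanSpace.single 0 1) = gden c r x := by
  have h1 : ∀ t : ℝ, hfun c r S (x + t • EuclideanSpace.single 0 1) =
      plat S ((x 0 + t - c 0) / r) * (bmp ((x 1 - c 1) / r) * bmp ((x 2 - c 2) / r)) := by
    intro t
    simp [hfun]
  have h2 : HasDerivAt (fun t : ℝ => hfun c r S (x + t • EuclideanSpace.single 0 1))
      (fderiv ℝ (hfun c r S) x (EuclideanSpace.single 0 1)) 0 := by
    have h3 : HasFDerivAt (hfun c r S) (fderiv ℝ (hfun c r S) x)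
        (x + (0 : ℝ) • EuclideanSpace.single 0 1) := by
      simpa using ((hfun_contDiff c r S).differentiable (by simp) x).hasFDerivAt
    have h4 : HasDerivAt (fun t : ℝ => x + t • (EuclideanSpace.single 0 1 : E3))
        (EuclideanSpace.single 0 1) 0 := by
      simpa using ((hasDerivAt_id (0 : ℝ)).smul_const (EuclideanSpace.single 0 1 : E3)).const_add x
    exact h3.comp_hasDerivAt 0 h4
  have h5 : HasDerivAt (fun t : ℝ => hfun c r S (x + t • EuclideanSpace.single 0 1))
      (deriv (plat S) ((x 0 - c 0) / r) * (1 / r) *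
        (bmp ((x 1 - c 1) / r) * bmp ((x 2 - c 2) / r))) 0 := by
    simp_rw [h1]
    refine HasDerivAt.mul_const ?_ _
    have h6 : HasDerivAt (fun t : ℝ => (x 0 + t - c 0) / r) (1 / r) 0 := by
      simpa using (((hasDerivAt_id (0 : ℝ)).const_add (x 0)).sub_const (c 0)).div_const r
    have h7 : HasDerivAt (plat S) (deriv (plat S) ((x 0 - c 0) / r)) ((x 0 + 0 - c 0) / r) := by
      rw [add_zero]
      exact ((plat_contDiff S).differentiable (by simp) _).hasDerivAt
    exact h7.comp 0 h6
  rw [h2.unique h5, deriv_plat hx, gden]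
  ring

lemma gden_nonneg (c : E3) {r : ℝ} (hr : 0 < r) (x : E3) : 0 ≤ gden c r x :=
  mul_nonneg (div_nonneg (deriv_smoothTransition_nonneg _) hr.le)
    (mul_nonneg (bmp_nonneg _) (bmp_nonneg _))

lemma gden_continuous (c : E3) (r : ℝ) : Continuous (gden c r) := by
  unfold gden
  have h : ∀ i : Fin 3, Continuous (fun x : E3 => (x i - c i) / r) := fun i =>
    ((coord_contDiff i).sub contDiff_const).continuous.div_const r
  have hd : Continuous (deriv Real.smoothTransition) :=
    (Real.smoothTransition.contDiff (n := 1)).continuous_deriv (by simp)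
  exact ((hd.comp (h 0)).div_const r).mul
    ((bmp_contDiff.continuous.comp (h 1)).mul (bmp_contDiff.continuous.comp (h 2)))

lemma gden_support (c : E3) {r : ℝ} (hr : 0 < r) {x : E3} (hx : gden c r x ≠ 0) :
    x ∈ closedBall c (2 * r) := by
  rw [mem_closedBall, dist_eq_norm]
  refine norm_le_of_coord hr.le fun i => ?_
  have hb : ∀ j : Fin 3, bmp ((x j - c j) / r) ≠ 0 → |x j - c j| ≤ r := by
    intro j hj
    by_contra hcon
    push Not at hcon
    apply hj
    apply bmp_eq_zero
    rw [abs_div, abs_of_pos hr, le_div_iff₀ hr]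
    linarith
  unfold gden at hx
  have hx0 := left_ne_zero_of_mul hx
  have hx1 := left_ne_zero_of_mul (right_ne_zero_of_mul hx)
  have hx2 := right_ne_zero_of_mul (right_ne_zero_of_mul hx)
  fin_cases i
  · simp only [Fin.zero_eta, PiLp.sub_apply]
    have hx0' : deriv Real.smoothTransition ((x 0 - c 0) / r) ≠ 0 := by
      intro h; apply hx0; rw [h, zero_div]
    have h1 : 0 ≤ (x 0 - c 0) / r := by
      by_contra hcon
      push Not at hcon
      exact hx0' (deriv_smoothTransition_of_neg hcon)
    have h2 : (x 0 - c 0) / r ≤ 1 := by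
      by_contra hcon
      push Not at hcon
      exact hx0' (deriv_smoothTransition_of_gt hcon)
    rw [le_div_iff₀ hr, zero_mul] at h1
    rw [div_le_iff₀ hr] at h2
    rw [abs_of_nonneg h1]
    linarith
  · exact hb 1 hx1
  · exact hb 2 hx2

lemma gden_exists_pos (c : E3) {r : ℝ} (hr : 0 < r) : ∃ x, gden c r x ≠ 0 := by
  obtain ⟨u, _, hu⟩ := exists_deriv_smoothTransition_pos
  refine ⟨c + EuclideanSpace.single 0 (r * u), ?_⟩
  have h0 : (c + EuclideanSpace.single 0 (r * u) : E3) 0 = c 0 + r * u := by simp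
  have h1 : (c + EuclideanSpace.single 0 (r * u) : E3) 1 = c 1 := by simp
  have h2 : (c + EuclideanSpace.single 0 (r * u) : E3) 2 = c 2 := by simp
  unfold gden
  rw [h0, h1, h2]
  have h3 : (c 0 + r * u - c 0) / r = u := by field_simp; ring
  rw [h3, sub_self, sub_self, zero_div]
  have := bmp_zero_pos
  positivity

lemma gden_integral_pos (c : E3) {r : ℝ} (hr : 0 < r) : 0 < ∫ x, gden c r x := by
  have hcs : HasCompactSupport (gden c r) :=
    HasCompactSupport.of_support_subset_isCompact (isCompact_closedBall c (2 * r))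
      fun x hx => gden_support c hr hx
  obtain ⟨x, hx⟩ := gden_exists_pos c hr
  exact (gden_continuous c r).integral_pos_of_hasCompactSupport_nonneg_nonzero hcs
    (gden_nonneg c hr) hx

theorem exists_fields {k : ℕ} (Ω : Fin k → Set E3) (ho : ∀ i, IsOpen (Ω i))
    (hb : ∀ i, Bornology.IsBounded (Ω i)) (hne : ∀ i, (Ω i).Nonempty)
    (hd : Pairwise fun i j => Disjoint (Ω i) (Ω j)) :
    ∃ Z : Fin k → E3 → E3, (∀ j, ContDiff ℝ ∞ (Z j)) ∧ (∀ j, HasCompactSupport (Z j)) ∧
      ∀ i j, ∫ x in Ω i, LinearMap.trace ℝ E3 (fderiv ℝ (Z j) x).toLinearMap =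
        if i = j then 1 else 0 := by
  -- balls inside
  have hball : ∀ i, ∃ (c : E3) (r : ℝ), 0 < r ∧ closedBall c (2 * r) ⊆ Ω i := by
    intro i
    obtain ⟨c, hc⟩ := hne i
    obtain ⟨r, hr, h⟩ := nhds_basis_closedBall.mem_iff.mp ((ho i).mem_nhds hc)
    refine ⟨c, r / 2, by linarith, ?_⟩
    rwa [mul_div_cancel₀ _ (by norm_num : (2 : ℝ) ≠ 0)]
  choose c r hr hcr using hball
  -- a bound for all the sets
  obtain ⟨R, hR⟩ : ∃ R : ℝ, ∀ i, ∀ x ∈ Ω i, ‖x‖ ≤ R := by
    have h1 : Bornology.IsBounded (⋃ i, Ω i) := (Bornology.isBounded_iUnion).mpr hb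
    obtain ⟨R, hR⟩ := h1.exists_norm_le
    exact ⟨R, fun i x hx => hR x (mem_iUnion.mpr ⟨i, hx⟩)⟩
  set S : Fin k → ℝ := fun j => |(R - c j 0) / r j| + 1 with hS
  have hS0 : ∀ j, 0 ≤ S j := fun j => by positivity
  have hlt : ∀ i j, ∀ x ∈ Ω i, (x 0 - c j 0) / r j < S j := by
    intro i j x hx
    have h1 : x 0 ≤ R := (le_abs_self _).trans ((abs_coord_le x 0).trans (hR i x hx))
    have h2 : (x 0 - c j 0) / r j ≤ (R - c j 0) / r j := by
      have := hr j
      gcongr
    have h3 := le_abs_self ((R - c j 0) / r j)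
    simp only [hS]
    linarith
  set κ : Fin k → ℝ := fun j => ∫ x, gden (c j) (r j) x with hκ
  have hκ0 : ∀ j, 0 < κ j := fun j => gden_integral_pos (c j) (hr j)
  have hsm : ∀ j, ContDiff ℝ ∞ (fun x => (1 / κ j) * hfun (c j) (r j) (S j) x) := fun j =>
    contDiff_const.mul (hfun_contDiff _ _ _)
  refine ⟨fun j x => ((1 / κ j) * hfun (c j) (r j) (S j) x) • (EuclideanSpace.single 0 1 : E3),
    fun j => (hsm j).smul contDiff_const, fun j => ?_, fun i j => ?_⟩
  · have h1 : HasCompactSupport (fun x => (1 / κ j) * hfun (c j) (r j) (S j) x) :=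
      (hfun_compact (c j) (hr j) (hS0 j)).mul_left (f := fun _ => 1 / κ j)
    exact h1.smul_right (f' := fun _ => (EuclideanSpace.single 0 1 : E3))
  · have htr : ∀ x ∈ Ω i, LinearMap.trace ℝ E3 (fderiv ℝ (fun x =>
        ((1 / κ j) * hfun (c j) (r j) (S j) x) • (EuclideanSpace.single 0 1 : E3))
          x).toLinearMap = (1 / κ j) * gden (c j) (r j) x := by
      intro x hx
      have h1 : HasFDerivAt (fun x => (1 / κ j) * hfun (c j) (r j) (S j) x)
          ((1 / κ j) • fderiv ℝ (hfun (c j) (r j) (S j)) x) x :=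
        ((hfun_contDiff (c j) (r j) (S j)).differentiable (by simp) x).hasFDerivAt.const_mul _
      have h2 := h1.smul_const (EuclideanSpace.single 0 1 : E3)
      rw [h2.fderiv]
      have h3 : (((1 / κ j) • fderiv ℝ (hfun (c j) (r j) (S j)) x).smulRight
          (EuclideanSpace.single 0 1 : E3)).toLinearMap =
          (((1 / κ j) • fderiv ℝ (hfun (c j) (r j) (S j)) x).toLinearMap).smulRight
            (EuclideanSpace.single 0 1 : E3) := rfl
      rw [h3, LinearMap.trace_smulRight]
      have h4 : ((1 / κ j) • fderiv ℝ (hfun (c j) (r j) (S j)) x).toLinearMap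
          (EuclideanSpace.single 0 1 : E3) =
          (1 / κ j) * fderiv ℝ (hfun (c j) (r j) (S j)) x (EuclideanSpace.single 0 1) := rfl
      rw [h4, fderiv_hfun (c j) (hlt i j x hx)]
    rw [setIntegral_congr_fun (ho i).measurableSet htr, integral_const_mul]
    by_cases hij : i = j
    · subst hij
      rw [if_pos rfl]
      have h5 : ∫ x in Ω i, gden (c i) (r i) x = ∫ x, gden (c i) (r i) x := by
        refine setIntegral_eq_integral_of_forall_compl_eq_zero fun x hx => ?_
        by_contra hne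
        exact hx (hcr i (gden_support (c i) (hr i) hne))
      rw [h5]
      exact one_div_mul_cancel (hκ0 i).ne'
    · rw [if_neg hij]
      have h5 : ∫ x in Ω i, gden (c j) (r j) x = 0 := by
        refine setIntegral_eq_zero_of_forall_eq_zero fun x hx => ?_
        by_contra hne
        have h6 := hcr j (gden_support (c j) (hr j) hne)
        exact (Set.disjoint_left.mp (hd hij) hx) h6
      rw [h5, mul_zero]

end Kusner.H45
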