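import Pool.Agent.helper14.KusDefs

/-!
# Parameter integrals of finite sums of products, and the determinant expansion
-/

open Set Metric MeasureTheory
open scoped NNReal ENNReal ContDiff

namespace Kusner.H45

/-- The parameter space. -/
abbrev PP (k : ℕ) : Type := ℝ × (Fin k → ℝ)

/-- Finite sums of products of an analytic function of the parameter and a continuous function
of the point. -/
def Sep {k : ℕ} (f : PP k → E3 → ℝ) : Prop :=
  ∃ (ι : Type) (_ : Fintype ι) (u : ι → PP k → ℝ) (v : ι → E3 → ℝ),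
    (∀ i, ContDiff ℝ ω (u i)) ∧ (∀ i, Continuous (v i)) ∧ ∀ p x, f p x = ∑ i, u i p * v i x

lemma Sep.param {k : ℕ} {u : PP k → ℝ} (hu : ContDiff ℝ ω u) :
    Sep (k := k) (fun p _ => u p) :=
  ⟨Unit, inferInstance, fun _ => u, fun _ _ => 1, fun _ => hu, fun _ => continuous_const,
    fun p x => by simp⟩

lemma Sep.space {k : ℕ} {v : E3 → ℝ} (hv : Continuous v) :
    Sep (k := k) (fun _ x => v x) :=
  ⟨Unit, inferInstance, fun _ _ => 1, fun _ => v, fun _ => contDiff_const, fun _ => hv,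
    fun p x => by simp⟩

lemma Sep.const {k : ℕ} (a : ℝ) : Sep (k := k) (fun _ _ => a) := Sep.space continuous_const

lemma Sep.add {k : ℕ} {f g : PP k → E3 → ℝ} (hf : Sep f) (hg : Sep g) :
    Sep (fun p x => f p x + g p x) := by
  obtain ⟨ι, _, u, v, hu, hv, h⟩ := hf
  obtain ⟨ι', _, u', v', hu', hv', h'⟩ := hg
  refine ⟨ι ⊕ ι', inferInstance, Sum.elim u u', Sum.elim v v', ?_, ?_, fun p x => ?_⟩
  · rintro (i | i)
    · exact hu i
    · exact hu' i
  · rintro (i | i)
    · exact hv i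
    · exact hv' i
  · show f p x + g p x = _
    rw [h, h', Fintype.sum_sum_type]
    rfl

lemma Sep.mul {k : ℕ} {f g : PP k → E3 → ℝ} (hf : Sep f) (hg : Sep g) :
    Sep (fun p x => f p x * g p x) := by
  obtain ⟨ι, _, u, v, hu, hv, h⟩ := hf
  obtain ⟨ι', _, u', v', hu', hv', h'⟩ := hg
  refine ⟨ι × ι', inferInstance, fun i p => u i.1 p * u' i.2 p, fun i x => v i.1 x * v' i.2 x,
    fun i => (hu i.1).mul (hu' i.2), fun i => (hv i.1).mul (hv' i.2), fun p x => ?_⟩
  show f p x * g p x = _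
  rw [h, h', Finset.sum_mul_sum, Fintype.sum_prod_type]
  refine Finset.sum_congr rfl fun i _ => Finset.sum_congr rfl fun j _ => ?_
  ring

lemma Sep.neg {k : ℕ} {f : PP k → E3 → ℝ} (hf : Sep f) : Sep (fun p x => -f p x) := by
  have := (Sep.const (k := k) (-1)).mul hf
  simpa using this

lemma Sep.sub {k : ℕ} {f g : PP k → E3 → ℝ} (hf : Sep f) (hg : Sep g) :
    Sep (fun p x => f p x - g p x) := by
  have := hf.add hg.neg
  simpa [sub_eq_add_neg] using this

lemma Sep.sum {k : ℕ} {κ : Type*} (s : Finset κ) {f : κ → PP k → E3 → ℝ}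
    (hf : ∀ i ∈ s, Sep (f i)) : Sep (fun p x => ∑ i ∈ s, f i p x) := by
  classical
  induction s using Finset.induction_on with
  | empty => simpa using Sep.const (k := k) 0
  | insert a s ha ih =>
    have h1 := (hf a (Finset.mem_insert_self a s)).add
      (ih fun i hi => hf i (Finset.mem_insert_of_mem hi))
    simpa [Finset.sum_insert ha] using h1

lemma integrableOn_of_continuous {v : E3 → ℝ} (hv : Continuous v) {Ω : Set E3}
    (hb : Bornology.IsBounded Ω) : IntegrableOn v Ω := by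
  have h1 : IsCompact (closure Ω) := hb.isCompact_closure
  exact (hv.continuousOn.integrableOn_compact h1).mono_set subset_closure

lemma Sep.integrableOn {k : ℕ} {f : PP k → E3 → ℝ} (hf : Sep f) {Ω : Set E3}
    (hb : Bornology.IsBounded Ω) (p : PP k) : IntegrableOn (f p) Ω := by
  obtain ⟨ι, _, u, v, hu, hv, h⟩ := hf
  have h1 : f p = fun x => ∑ i, u i p * v i x := funext (h p)
  rw [h1]
  exact integrable_finsetSum _ fun i _ => (integrableOn_of_continuous (hv i) hb).const_mul _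

lemma Sep.contDiff_integral {k : ℕ} {f : PP k → E3 → ℝ} (hf : Sep f) {Ω : Set E3}
    (hb : Bornology.IsBounded Ω) : ContDiff ℝ ω (fun p => ∫ x in Ω, f p x) := by
  obtain ⟨ι, _, u, v, hu, hv, h⟩ := hf
  have h1 : (fun p => ∫ x in Ω, f p x) = fun p => ∑ i, u i p * ∫ x in Ω, v i x := by
    funext p
    simp_rw [h p]
    rw [integral_finsetSum _ fun i _ => (integrableOn_of_continuous (hv i) hb).const_mul _]
    exact Finset.sum_congr rfl fun i _ => integral_const_mul _ _
  rw [h1]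
  exact ContDiff.sum fun i _ => (hu i).mul contDiff_const

/-! ### Matrices -/

/-- The matrix of a linear map in the standard basis. -/
noncomputable def mat (L : E3 →L[ℝ] E3) : Matrix (Fin 3) (Fin 3) ℝ :=
  LinearMap.toMatrix (EuclideanSpace.basisFun (Fin 3) ℝ).toBasis
    (EuclideanSpace.basisFun (Fin 3) ℝ).toBasis L.toLinearMap

lemma mat_apply (L : E3 →L[ℝ] E3) (r s : Fin 3) : mat L r s = L (EuclideanSpace.single s 1) r := by
  simp [mat, LinearMap.toMatrix_apply]

lemma mat_det (L : E3 →L[ℝ] E3) : (mat L).det = L.det := by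
  rw [mat, LinearMap.det_toMatrix]

lemma mat_trace (L : E3 →L[ℝ] E3) : (mat L).trace = LinearMap.trace ℝ E3 L.toLinearMap := by
  rw [mat, ← LinearMap.trace_eq_matrix_trace]

lemma mat_comp (L L' : E3 →L[ℝ] E3) : mat (L.comp L') = mat L * mat L' := by
  rw [mat, mat, mat, ← LinearMap.toMatrix_comp]; rfl

lemma mat_add (L L' : E3 →L[ℝ] E3) : mat (L + L') = mat L + mat L' := by
  ext r s; simp [mat_apply]

lemma mat_smul (a : ℝ) (L : E3 →L[ℝ] E3) : mat (a • L) = a • mat L := by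
  ext r s; simp [mat_apply]

lemma mat_sum {ι : Type*} (s : Finset ι) (L : ι → E3 →L[ℝ] E3) :
    mat (∑ i ∈ s, L i) = ∑ i ∈ s, mat (L i) := by
  classical
  induction s using Finset.induction_on with
  | empty => ext r s; simp [mat_apply]
  | insert a s ha ih => rw [Finset.sum_insert ha, Finset.sum_insert ha, mat_add, ih]

lemma mat_id : mat (ContinuousLinearMap.id ℝ E3) = 1 := by
  ext r s
  rw [mat_apply]
  simp [Matrix.one_apply]

lemma det_expand (P B : Matrix (Fin 3) (Fin 3) ℝ) (hP : P.trace = 0) (τ : ℝ) :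
    (1 + τ • P + τ ^ 2 • B).det = 1 + τ ^ 2 * (B.trace - (P * P).trace / 2) +
      τ ^ 3 * (τ / 2 * B.trace ^ 2 - (P * B).trace - τ / 2 * (B * B).trace +
        (P + τ • B).det) := by
  have h2 : P 2 2 = -P 0 0 - P 1 1 := by
    rw [Matrix.trace_fin_three] at hP
    linarith
  simp only [Matrix.det_fin_three, Matrix.trace_fin_three, Matrix.mul_apply, Fin.sum_univ_three,
    Matrix.add_apply, Matrix.smul_apply, smul_eq_mul, Matrix.one_apply_eq,
    Matrix.one_apply_ne (show (0 : Fin 3) ≠ 1 by decide),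
    Matrix.one_apply_ne (show (0 : Fin 3) ≠ 2 by decide),
    Matrix.one_apply_ne (show (1 : Fin 3) ≠ 0 by decide),
    Matrix.one_apply_ne (show (1 : Fin 3) ≠ 2 by decide),
    Matrix.one_apply_ne (show (2 : Fin 3) ≠ 0 by decide),
    Matrix.one_apply_ne (show (2 : Fin 3) ≠ 1 by decide), h2]
  ring

/-- The correction matrix. -/
noncomputable def Bm {k : ℕ} (A : E3 → E3) (Z : Fin k → E3 → E3) (b : Fin k → ℝ) (x : E3) :
    Matrix (Fin 3) (Fin 3) ℝ :=
  (1 / 2 : ℝ) • mat (fderiv ℝ A x) + ∑ j, b j • mat (fderiv ℝ (Z j) x)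

/-- The remainder. -/
noncomputable def Sf {k : ℕ} (X A : E3 → E3) (Z : Fin k → E3 → E3) (p : PP k) (x : E3) : ℝ :=
  p.1 / 2 * (Bm A Z p.2 x).trace ^ 2 - (mat (fderiv ℝ X x) * Bm A Z p.2 x).trace -
    p.1 / 2 * (Bm A Z p.2 x * Bm A Z p.2 x).trace + (mat (fderiv ℝ X x) + p.1 • Bm A Z p.2 x).det

lemma mat_continuous {V : E3 → E3} (hV : ContDiff ℝ ∞ V) (r s : Fin 3) :
    Continuous fun x => mat (fderiv ℝ V x) r s := by
  simp_rw [mat_apply]
  have h1 : Continuous fun x => fderiv ℝ V x (EuclideanSpace.single s 1) :=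
    (hV.continuous_fderiv (by simp)).clm_apply continuous_const
  exact (EuclideanSpace.proj r : E3 →L[ℝ] ℝ).continuous.comp h1

lemma sep_fst {k : ℕ} : Sep (k := k) (fun p _ => p.1) := Sep.param contDiff_fst

lemma sep_snd {k : ℕ} (j : Fin k) : Sep (k := k) (fun p _ => p.2 j) :=
  Sep.param ((contDiff_apply ℝ ℝ j).comp contDiff_snd)

lemma sep_Bm {k : ℕ} {A : E3 → E3} {Z : Fin k → E3 → E3} (hA : ContDiff ℝ ∞ A)
    (hZ : ∀ j, ContDiff ℝ ∞ (Z j)) (r s : Fin 3) :
    Sep (fun (p : PP k) x => Bm A Z p.2 x r s) := by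
  have h1 : (fun (p : PP k) x => Bm A Z p.2 x r s) = fun (p : PP k) x =>
      (1 / 2 : ℝ) * mat (fderiv ℝ A x) r s + ∑ j, p.2 j * mat (fderiv ℝ (Z j) x) r s := by
    funext p x
    simp [Bm, Matrix.sum_apply]
  rw [h1]
  exact ((Sep.const _).mul (Sep.space (mat_continuous hA r s))).add
    (Sep.sum _ fun j _ => (sep_snd j).mul (Sep.space (mat_continuous (hZ j) r s)))

lemma sep_trace {k : ℕ} {M : PP k → E3 → Matrix (Fin 3) (Fin 3) ℝ}
    (hM : ∀ r s, Sep (fun p x => M p x r s)) : Sep (fun p x => (M p x).trace) := by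
  simp_rw [Matrix.trace_fin_three]
  exact ((hM 0 0).add (hM 1 1)).add (hM 2 2)

lemma sep_mul {k : ℕ} {M M' : PP k → E3 → Matrix (Fin 3) (Fin 3) ℝ}
    (hM : ∀ r s, Sep (fun p x => M p x r s)) (hM' : ∀ r s, Sep (fun p x => M' p x r s))
    (r s : Fin 3) : Sep (fun p x => (M p x * M' p x) r s) := by
  simp_rw [Matrix.mul_apply]
  exact Sep.sum _ fun j _ => (hM r j).mul (hM' j s)

lemma sep_det {k : ℕ} {M : PP k → E3 → Matrix (Fin 3) (Fin 3) ℝ}
    (hM : ∀ r s, Sep (fun p x => M p x r s)) : Sep (fun p x => (M p x).det) := by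
  simp_rw [Matrix.det_fin_three]
  exact (((((((hM 0 0).mul (hM 1 1)).mul (hM 2 2)).sub (((hM 0 0).mul (hM 1 2)).mul (hM 2 1))).sub
    (((hM 0 1).mul (hM 1 0)).mul (hM 2 2))).add (((hM 0 1).mul (hM 1 2)).mul (hM 2 0))).add
    (((hM 0 2).mul (hM 1 0)).mul (hM 2 1))).sub (((hM 0 2).mul (hM 1 1)).mul (hM 2 0))

lemma sep_Sf {k : ℕ} {X A : E3 → E3} {Z : Fin k → E3 → E3} (hX : ContDiff ℝ ∞ X)
    (hA : ContDiff ℝ ∞ A) (hZ : ∀ j, ContDiff ℝ ∞ (Z j)) : Sep (Sf X A Z) := by
  have hB := sep_Bm hA hZ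
  have hP : ∀ r s, Sep (fun (_ : PP k) x => mat (fderiv ℝ X x) r s) := fun r s =>
    Sep.space (mat_continuous hX r s)
  have h12 : Sep (fun (p : PP k) (_ : E3) => p.1 / 2) := by
    have := (sep_fst (k := k)).mul (Sep.const (1 / 2))
    simpa [div_eq_mul_inv] using this
  have hPB : ∀ r s, Sep (fun (p : PP k) x => (mat (fderiv ℝ X x) + p.1 • Bm A Z p.2 x) r s) := by
    intro r s
    simp_rw [Matrix.add_apply, Matrix.smul_apply, smul_eq_mul]
    exact (hP r s).add (sep_fst.mul (hB r s))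
  have ht := sep_trace (M := fun (p : PP k) x => Bm A Z p.2 x) hB
  have ht2 : Sep (fun (p : PP k) x => (Bm A Z p.2 x).trace ^ 2) := by
    simp_rw [pow_two]
    exact ht.mul ht
  have h1 := (((h12.mul ht2).sub (sep_trace (sep_mul hP hB))).sub
    (h12.mul (sep_trace (sep_mul hB hB)))).add (sep_det hPB)
  exact h1

end Kusner.H45
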