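import Pool.Agent.helper45.Kus3.Deform
import Pool.Agent.helper45.Kus3.Fields
import Pool.Agent.helper45.Kus3.Sep
import Pool.Agent.helper14.Kus3.TraceAcc

/-!
# Volume preserving deformations with given velocity and acceleration
-/

open Set Metric MeasureTheory Filter
open scoped NNReal ENNReal ContDiff Topology

namespace Kusner.H45

/-- The implicit function: the coefficients of the correction. -/
theorem exists_coef {k : ℕ} {Ω : Fin k → Set E3} (hb : ∀ i, Bornology.IsBounded (Ω i))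
    {S : PP k → E3 → ℝ} (hS : Sep S) :
    ∃ b : ℝ → Fin k → ℝ, AnalyticAt ℝ b 0 ∧ b 0 = 0 ∧
      ∀ᶠ τ in 𝓝 (0 : ℝ), ∀ i, b τ i + τ * ∫ x in Ω i, S (τ, b τ) x = 0 := by
  set f : PP k → (Fin k → ℝ) := fun p i => p.2 i + p.1 * ∫ x in Ω i, S p x with hf
  have hfc : ContDiff ℝ ω f := by
    rw [contDiff_pi]
    intro i
    exact ((contDiff_apply ℝ ℝ i).comp contDiff_snd).add
      (contDiff_fst.mul (hS.contDiff_integral (hb i)))
  have hfd : HasFDerivAt f (fderiv ℝ f (0, 0)) (0, 0) :=
    (hfc.differentiable (by simp) _).hasFDerivAt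
  have hinr : fderiv ℝ f (0, 0) ∘L ContinuousLinearMap.inr ℝ ℝ (Fin k → ℝ) =
      ContinuousLinearMap.id ℝ (Fin k → ℝ) := by
    have h1 : HasFDerivAt (fun b : Fin k → ℝ => f (0, b))
        (fderiv ℝ f (0, 0) ∘L ContinuousLinearMap.inr ℝ ℝ (Fin k → ℝ)) 0 :=
      HasFDerivAt.comp (0 : Fin k → ℝ) (g := f) hfd (hasFDerivAt_prodMk_right (𝕜 := ℝ) (0 : ℝ) (0 : Fin k → ℝ))
    have h2 : (fun b : Fin k → ℝ => f (0, b)) = id := by
      funext b i
      simp [hf]
    rw [h2] at h1
    exact h1.unique (hasFDerivAt_id _)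
  have hinv : (fderiv ℝ f (0, 0) ∘L ContinuousLinearMap.inr ℝ ℝ (Fin k → ℝ)).IsInvertible := by
    rw [hinr]
    exact ⟨ContinuousLinearEquiv.refl ℝ _, rfl⟩
  have hat : ContDiffAt ℝ ω f ((0, 0) : ℝ × (Fin k → ℝ)) := hfc.contDiffAt
  refine ⟨hat.implicitFunction (by simp) hinv, ?_, ?_, ?_⟩
  · exact (hat.contDiffAt_implicitFunction (by simp) hinv).analyticAt
  · exact hat.implicitFunction_apply_self (by simp) hinv
  · filter_upwards [hat.eventually_apply_implicitFunction (by simp) hinv] with τ hτ i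
    have h3 := congrFun hτ i
    simpa [hf] using h3

lemma eventually_good {a : ℝ → ℝ} (ha : AnalyticAt ℝ a 0) (ha0 : a 0 = 0) {η : ℝ} (hη : 0 < η) :
    ∀ᶠ ε in 𝓝[>] (0 : ℝ), (∀ t : ℝ, AnalyticAt ℝ a (ε * Real.sin t)) ∧
      (∀ t : ℝ, |a (ε * Real.sin t)| ≤ η) ∧
      ∀ t t' : ℝ, |a (ε * Real.sin t) - a (ε * Real.sin t')| ≤ η * |t - t'| := by
  obtain ⟨K, s, hs, hK⟩ := (ha.contDiffAt (n := 1)).exists_lipschitzOnWith
  obtain ⟨δ, hδ, hball⟩ := Metric.eventually_nhds_iff.mp
    ((ha.eventually_analyticAt).and (Filter.eventually_mem_set.mpr hs))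
  have h1 : ∀ᶠ ε in 𝓝[>] (0 : ℝ), ε < min δ (η / (K + 1)) ∧ 0 < ε := by
    have hpos : 0 < min δ (η / (K + 1)) := lt_min hδ (by positivity)
    filter_upwards [Ioo_mem_nhdsGT hpos] with ε hε
    exact ⟨hε.2, hε.1⟩
  filter_upwards [h1] with ε hε
  have hεδ : ε < δ := hε.1.trans_le (min_le_left _ _)
  have hεK : ε * K ≤ η := by
    have h2 : ε < η / (K + 1) := hε.1.trans_le (min_le_right _ _)
    rw [lt_div_iff₀ (by positivity)] at h2
    nlinarith [hε.2]
  have hin : ∀ t : ℝ, dist (ε * Real.sin t) 0 < δ := by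
    intro t
    rw [Real.dist_eq, sub_zero, abs_mul, abs_of_pos hε.2]
    have := Real.abs_sin_le_one t
    nlinarith [hε.2]
  have hlip : ∀ x y : ℝ, dist x 0 < δ → dist y 0 < δ → |a x - a y| ≤ K * |x - y| := by
    intro x y hx hy
    have := hK.dist_le_mul x (hball hx).2 y (hball hy).2
    rwa [Real.dist_eq, Real.dist_eq] at this
  refine ⟨fun t => (hball (hin t)).1, fun t => ?_, fun t t' => ?_⟩
  · have h3 := hlip (ε * Real.sin t) 0 (hin t) (by simpa using hδ)
    rw [ha0, sub_zero, sub_zero, abs_mul, abs_of_pos hε.2] at h3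
    have h4 := Real.abs_sin_le_one t
    refine h3.trans ?_
    calc (K : ℝ) * (ε * |Real.sin t|) ≤ K * (ε * 1) := by gcongr; exact hε.2.le
      _ = ε * K := by ring
      _ ≤ η := hεK
  · have h3 := hlip (ε * Real.sin t) (ε * Real.sin t') (hin t) (hin t')
    have h4 := Real.abs_sin_sub_sin_le t t'
    refine h3.trans ?_
    rw [← mul_sub, abs_mul, abs_of_pos hε.2]
    calc (K : ℝ) * (ε * |Real.sin t - Real.sin t'|) ≤ K * (ε * |t - t'|) := by
          gcongr; exact hε.2.le
      _ = ε * K * |t - t'| := by ring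
      _ ≤ η * |t - t'| := by gcongr

lemma contDiff_comp_sin {a : ℝ → ℝ} {ε : ℝ} (h : ∀ t : ℝ, AnalyticAt ℝ a (ε * Real.sin t)) :
    ContDiff ℝ ∞ (fun t => a (ε * Real.sin t)) := by
  rw [contDiff_iff_contDiffAt]
  intro t
  have h1 : ContDiffAt ℝ ∞ a (ε * Real.sin t) := (h t).contDiffAt
  have h2 : ContDiffAt ℝ ∞ (fun t => ε * Real.sin t) t :=
    (contDiff_const.mul Real.contDiff_sin).contDiffAt
  exact ContDiffAt.comp t h1 h2

/-- The volume of a perturbed cell. -/
lemma volume_image {φ : E3 → E3} (hφ : Differentiable ℝ φ) (hinj : Function.Injective φ)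
    (hpos : ∀ x, 0 < (fderiv ℝ φ x).det) {Ω : Set E3} (ho : IsOpen Ω)
    (hb : Bornology.IsBounded Ω) {g : E3 → ℝ} (hg : IntegrableOn g Ω)
    (hd : ∀ x, (fderiv ℝ φ x).det = 1 + g x) (h0 : ∫ x in Ω, g x = 0) :
    volume (φ '' Ω) = volume Ω := by
  rw [← lintegral_abs_det_fderiv_eq_addHaar_image volume ho.measurableSet
    (fun x _ => (hφ x).hasFDerivAt.hasFDerivWithinAt) hinj.injOn]
  have hlt : volume Ω ≠ ⊤ := hb.measure_lt_top.ne
  have h1 : ∀ x, ENNReal.ofReal |(fderiv ℝ φ x).det| = ENNReal.ofReal (1 + g x) := by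
    intro x
    rw [abs_of_pos (hpos x), hd]
  simp_rw [h1]
  have hint : IntegrableOn (fun x => 1 + g x) Ω := (integrableOn_const hlt).add hg
  rw [← ofReal_integral_eq_lintegral_ofReal hint
    (Filter.Eventually.of_forall fun x => by
      have := hpos x
      rw [hd x] at this
      exact this.le)]
  have h2 : ∫ x in Ω, (1 + g x) = volume.real Ω := by
    have h3 : IntegrableOn (fun _ : E3 => (1 : ℝ)) Ω := integrableOn_const hlt
    rw [integral_add (μ := volume.restrict Ω) h3 hg, h0, add_zero, setIntegral_const]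
    simp
  rw [h2, Measure.real, ENNReal.ofReal_toReal hlt]

lemma sin_sq_mul {β : ℝ → ℝ} (hβ : ContDiff ℝ ∞ β) (ε : ℝ) :
    deriv (fun t => (ε * Real.sin t) ^ 2 * β t) 0 = 0 ∧
      HasDerivAt (deriv (fun t => (ε * Real.sin t) ^ 2 * β t)) (2 * ε ^ 2 * β 0) 0 := by
  have hβ' : ContDiff ℝ ∞ (deriv β) := (contDiff_infty_iff_deriv.mp hβ).2
  have h1 : ∀ t, HasDerivAt (fun t => (ε * Real.sin t) ^ 2 * β t)
      (ε ^ 2 * (Real.sin t * (2 * Real.cos t * β t + Real.sin t * deriv β t))) t := by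
    intro t
    have h2 : HasDerivAt (fun t => ε * Real.sin t) (ε * Real.cos t) t :=
      (Real.hasDerivAt_sin t).const_mul ε
    have h3 : HasDerivAt β (deriv β t) t := (hβ.differentiable (by simp) t).hasDerivAt
    refine ((h2.fun_pow 2).fun_mul h3).congr_deriv ?_
    simp only [Nat.cast_ofNat, Nat.add_one_sub_one, pow_one]
    ring
  have h4 : deriv (fun t => (ε * Real.sin t) ^ 2 * β t) = fun t =>
      ε ^ 2 * (Real.sin t * (2 * Real.cos t * β t + Real.sin t * deriv β t)) :=
    funext fun t => (h1 t).deriv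
  refine ⟨by rw [h4]; simp, ?_⟩
  rw [h4]
  have h5 : Differentiable ℝ (fun t => 2 * Real.cos t * β t + Real.sin t * deriv β t) :=
    (((Real.differentiable_cos.const_mul 2)).mul (hβ.differentiable (by simp))).add
      (Real.differentiable_sin.mul (hβ'.differentiable (by simp)))
  have h6 := ((Real.hasDerivAt_sin 0).mul (h5 0).hasDerivAt).const_mul (ε ^ 2)
  refine h6.congr_deriv ?_
  simp
  ring

lemma hasDerivAt_sum_smul {ι F : Type*} [Fintype ι] [NormedAddCommGroup F] [NormedSpace ℝ F]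
    (c : F) (W : ι → F) {α : ι → ℝ → ℝ} (hα : ∀ i, Differentiable ℝ (α i)) (t : ℝ) :
    HasDerivAt (fun t => c + ∑ i, α i t • W i) (∑ i, deriv (α i) t • W i) t :=
  HasDerivAt.const_add _ (HasDerivAt.fun_sum fun i _ => (hα i t).hasDerivAt.smul_const (W i))

lemma sum_opt1 {k : ℕ} {F : Type*} [NormedAddCommGroup F] [NormedSpace ℝ F]
    (c : Option (Option (Fin k)) → ℝ) (W : Option (Option (Fin k)) → F) {a : ℝ}
    (h0 : c none = a) (h1 : c (some none) = 0) (h : ∀ j, c (some (some j)) = 0) :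
    ∑ i, c i • W i = a • W none := by
  rw [Fintype.sum_option, Fintype.sum_option]
  simp [h, h0, h1]

lemma sum_opt2 {k : ℕ} {F : Type*} [NormedAddCommGroup F] [NormedSpace ℝ F]
    (c : Option (Option (Fin k)) → ℝ) (W : Option (Option (Fin k)) → F) {a : ℝ}
    (h0 : c none = 0) (h1 : c (some none) = a) (h : ∀ j, c (some (some j)) = 0) :
    ∑ i, c i • W i = a • W (some none) := by
  rw [Fintype.sum_option, Fintype.sum_option]
  simp [h, h0, h1]

lemma sin_lin (ε : ℝ) : deriv (fun t => ε * Real.sin t) 0 = ε ∧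
    HasDerivAt (deriv (fun t => ε * Real.sin t)) 0 0 := by
  have h4 : deriv (fun t => ε * Real.sin t) = fun t => ε * Real.cos t :=
    funext fun t => ((Real.hasDerivAt_sin t).const_mul ε).deriv
  rw [h4]
  refine ⟨by simp, ?_⟩
  refine ((Real.hasDerivAt_cos 0).const_mul ε).congr_deriv ?_
  simp

end Kusner.H45

namespace Kusner.P

open Kusner.H45

theorem exists_test_deformation {k : ℕ} (Ω : Fin k → Set E3) (ho : ∀ i, IsOpen (Ω i))
    (hb : ∀ i, Bornology.IsBounded (Ω i)) (hne : ∀ i, (Ω i).Nonempty)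
    (hd : Pairwise fun i j => Disjoint (Ω i) (Ω j)) {X : E3 → E3} (hX : ContDiff ℝ ∞ X)
    (hc : HasCompactSupport X)
    (hdiv : ∀ x, LinearMap.trace ℝ E3 (fderiv ℝ X x).toLinearMap = 0) :
    ∃ (φ : ℝ → E3 → E3) (ε : ℝ), 0 < ε ∧ IsDeformation φ ∧ PreservesVolumes Ω φ ∧
      (∀ x, HasDerivAt (fun t => fderiv ℝ (φ t) x) (ε • fderiv ℝ X x) 0) ∧
      (∀ x, HasDerivAt (fun t => deriv (fun s => fderiv ℝ (φ s) x) t)
        (ε ^ 2 • fderiv ℝ (fun y => fderiv ℝ X y (X y)) x) 0) := by
  obtain ⟨Z, hZ, hZc, hZi⟩ := exists_fields Ω ho hb hne hd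
  set A : E3 → E3 := fun y => fderiv ℝ X y (X y) with hA
  have hAs : ContDiff ℝ ∞ A := (hX.fderiv_right (m := ∞) (by simp)).clm_apply hX
  have hAc : HasCompactSupport A := by
    refine hc.mono' ?_
    intro x hx
    refine subset_tsupport X ?_
    rw [Function.mem_support] at hx ⊢
    intro h0
    apply hx
    simp [hA, h0]
  have hSep := sep_Sf hX hAs hZ
  obtain ⟨b, hban, hb0, hbz⟩ := exists_coef hb hSep
  -- the fields
  set V : Option (Option (Fin k)) → E3 → E3 := fun o => o.elim X fun o' => o'.elim A Z with hV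
  have hVs : ∀ i, ContDiff ℝ ∞ (V i) := by
    rintro (_ | _ | j)
    · exact hX
    · exact hAs
    · exact hZ j
  have hVc : ∀ i, HasCompactSupport (V i) := by
    rintro (_ | _ | j)
    · exact hc
    · exact hAc
    · exact hZc j
  obtain ⟨η, hη, hdef⟩ := isDeformation_gpert V hVs hVc
  -- the coefficients
  set a : Option (Option (Fin k)) → ℝ → ℝ := fun o s => o.elim s fun o' =>
    o'.elim (s ^ 2 / 2) fun j => s ^ 2 * b s j with ha
  have haan : ∀ i, AnalyticAt ℝ (a i) 0 := by
    rintro (_ | _ | j)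
    · exact analyticAt_id
    · exact (analyticAt_id.pow 2).div_const
    · exact (analyticAt_id.pow 2).mul (analyticAt_pi_iff.mp hban j)
  have ha0 : ∀ i, a i 0 = 0 := by
    rintro (_ | _ | j) <;> simp [ha]
  have hgood := Filter.eventually_all.mpr fun i => eventually_good (haan i) (ha0 i) hη
  have hbgood : ∀ᶠ ε in 𝓝[>] (0 : ℝ), 0 < ε ∧ ∀ t : ℝ, AnalyticAt ℝ b (ε * Real.sin t) ∧
      ∀ i, b (ε * Real.sin t) i + (ε * Real.sin t) *
        ∫ x in Ω i, Sf X A Z ((ε * Real.sin t), b (ε * Real.sin t)) x = 0 := by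
    obtain ⟨δ, hδ, hball⟩ := Metric.eventually_nhds_iff.mp (hban.eventually_analyticAt.and hbz)
    filter_upwards [Ioo_mem_nhdsGT hδ] with ε hε
    refine ⟨hε.1, fun t => hball ?_⟩
    rw [Real.dist_eq, sub_zero, abs_mul, abs_of_pos hε.1]
    have := Real.abs_sin_le_one t
    nlinarith [hε.1, hε.2]
  obtain ⟨ε, hgε, hε0, hbε⟩ := (hgood.and hbgood).exists
  set α : Option (Option (Fin k)) → ℝ → ℝ := fun i t => a i (ε * Real.sin t) with hα
  have hαs : ∀ i, ContDiff ℝ ∞ (α i) := fun i => contDiff_comp_sin (hgε i).1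
  obtain ⟨hdef1, hdet⟩ := hdef α hαs (fun i => by simp [hα, ha0]) (fun i t => (hgε i).2.1 t)
    (fun i t t' => (hgε i).2.2 t t')
  have hfd : ∀ t x, fderiv ℝ (gpert V α t) x =
      ContinuousLinearMap.id ℝ E3 + ∑ i, α i t • fderiv ℝ (V i) x := by
    intro t x
    have h1 : HasFDerivAt (gpert V α t)
        (ContinuousLinearMap.id ℝ E3 + ∑ i, α i t • fderiv ℝ (V i) x) x := by
      refine (hasFDerivAt_id x).add (HasFDerivAt.fun_sum fun i _ => ?_)
      exact (((hVs i).differentiable (by simp) x).hasFDerivAt).const_smul (α i t)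
    exact h1.fderiv
  have hder : ∀ x t, HasDerivAt (fun t => fderiv ℝ (gpert V α t) x)
      (∑ i, deriv (α i) t • fderiv ℝ (V i) x) t := by
    intro x t
    have h1 : (fun t => fderiv ℝ (gpert V α t) x) = fun t =>
        ContinuousLinearMap.id ℝ E3 + ∑ i, α i t • fderiv ℝ (V i) x := funext fun t => hfd t x
    rw [h1]
    exact hasDerivAt_sum_smul _ _ (fun i => (hαs i).differentiable (by simp)) t
  have hα0 : deriv (α none) 0 = ε ∧ HasDerivAt (deriv (α none)) 0 0 := sin_lin ε
  have hα1 : deriv (α (some none)) 0 = 0 ∧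
      HasDerivAt (deriv (α (some none))) (2 * ε ^ 2 * (1 / 2)) 0 := by
    have h1 : α (some none) = fun t => (ε * Real.sin t) ^ 2 * (1 / 2) := by
      funext t
      show (ε * Real.sin t) ^ 2 / 2 = _
      ring
    rw [h1]
    exact sin_sq_mul (β := fun _ => 1 / 2) contDiff_const ε
  have hα2 : ∀ j, deriv (α (some (some j))) 0 = 0 ∧
      HasDerivAt (deriv (α (some (some j)))) (2 * ε ^ 2 * b (ε * Real.sin 0) j) 0 := by
    intro j
    exact sin_sq_mul (β := fun t => b (ε * Real.sin t) j)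
      (contDiff_comp_sin fun t => analyticAt_pi_iff.mp (hbε t).1 j) ε
  refine ⟨gpert V α, ε, hε0, hdef1, ?_, ?_, ?_⟩
  · -- volumes
    intro t i
    set τ : ℝ := ε * Real.sin t with hτ
    obtain ⟨ψ, _, hψ, _⟩ := hdef1.diffeo
    have hinj : Function.Injective (gpert V α t) := by
      intro x y hxy
      rw [← hψ t x, ← hψ t y, hxy]
    have hdiff : Differentiable ℝ (gpert V α t) := by
      have h1 := hdef1.smooth.comp (contDiff_prodMk_right t)
      exact h1.differentiable (by simp)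
    have hZint : ∀ j, IntegrableOn (fun x => (mat (fderiv ℝ (Z j) x)).trace) (Ω i) := by
      intro j
      refine integrableOn_of_continuous ?_ (hb i)
      simp_rw [Matrix.trace_fin_three]
      exact ((mat_continuous (hZ j) 0 0).add (mat_continuous (hZ j) 1 1)).add
        (mat_continuous (hZ j) 2 2)
    have hSint : IntegrableOn (fun x => Sf X A Z (τ, b τ) x) (Ω i) :=
      hSep.integrableOn (hb i) (τ, b τ)
    have hsumint : IntegrableOn (fun x => ∑ j, b τ j * (mat (fderiv ℝ (Z j) x)).trace) (Ω i) :=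
      integrable_finsetSum _ fun j _ => (hZint j).const_mul _
    have hint : IntegrableOn (fun x => τ ^ 2 * (∑ j, b τ j * (mat (fderiv ℝ (Z j) x)).trace +
        τ * Sf X A Z (τ, b τ) x)) (Ω i) :=
      (hsumint.add (hSint.const_mul τ)).const_mul _
    refine volume_image hdiff hinj (hdet t) (ho i) (hb i) hint ?_ ?_
    · intro x
      rw [hfd t x, ← mat_det, mat_add, mat_id, mat_sum, Fintype.sum_option, Fintype.sum_option]
      simp only [mat_smul]
      have h1 : (1 : Matrix (Fin 3) (Fin 3) ℝ) + (α none t • mat (fderiv ℝ (V none) x) +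
          (α (some none) t • mat (fderiv ℝ (V (some none)) x) +
            ∑ j : Fin k, α (some (some j)) t • mat (fderiv ℝ (V (some (some j))) x))) =
          1 + τ • mat (fderiv ℝ X x) + τ ^ 2 • Bm A Z (b τ) x := by
        have e1 : α none t = τ := rfl
        have e2 : α (some none) t = τ ^ 2 / 2 := rfl
        have e3 : ∀ j : Fin k, α (some (some j)) t = τ ^ 2 * b τ j := fun j => rfl
        have e4 : V none = X := rfl
        have e5 : V (some none) = A := rfl
        have e6 : ∀ j : Fin k, V (some (some j)) = Z j := fun j => rfl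
        simp only [e1, e2, e3, e4, e5, e6, Bm, smul_add, Finset.smul_sum, smul_smul]
        rw [add_assoc]
        congr 3
        ring_nf
      rw [h1, det_expand _ _ (by rw [mat_trace, hdiv])]
      have h2 : (Bm A Z (b τ) x).trace - (mat (fderiv ℝ X x) * mat (fderiv ℝ X x)).trace / 2 =
          ∑ j, b τ j * (mat (fderiv ℝ (Z j) x)).trace := by
        have h3 : (mat (fderiv ℝ A x)).trace =
            (mat (fderiv ℝ X x) * mat (fderiv ℝ X x)).trace := by
          rw [← mat_comp, mat_trace, mat_trace]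
          exact trace_acc hX hdiv x
        rw [Bm, Matrix.trace_add, Matrix.trace_smul, h3, Matrix.trace_sum]
        simp only [Matrix.trace_smul, smul_eq_mul]
        ring
      rw [h2, Sf]
      ring
    · have h1 : ∫ x in Ω i, τ ^ 2 * (∑ j, b τ j * (mat (fderiv ℝ (Z j) x)).trace +
          τ * Sf X A Z (τ, b τ) x) = τ ^ 2 * (b τ i + τ * ∫ x in Ω i, Sf X A Z (τ, b τ) x) := by
        rw [integral_const_mul, integral_add (μ := volume.restrict (Ω i)) hsumint
          (hSint.const_mul τ), integral_finsetSum _ fun j _ => (hZint j).const_mul _,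
          integral_const_mul]
        congr 2
        have h2 : ∀ j, ∫ x in Ω i, b τ j * (mat (fderiv ℝ (Z j) x)).trace =
            b τ j * if i = j then 1 else 0 := by
          intro j
          rw [integral_const_mul, ← hZi i j]
          simp_rw [mat_trace]
        simp_rw [h2]
        simp
      rw [h1, (hbε t).2 i, mul_zero]
  · -- first derivative
    intro x
    refine (hder x 0).congr_deriv ?_
    exact sum_opt1 (fun i => deriv (α i) 0) (fun i => fderiv ℝ (V i) x) hα0.1 hα1.1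
      fun j => (hα2 j).1
  · intro x
    have h1 : (fun t => deriv (fun s => fderiv ℝ (gpert V α s) x) t) = fun t =>
        ∑ i, deriv (α i) t • fderiv ℝ (V i) x := funext fun t => (hder x t).deriv
    rw [h1]
    have h2 := hasDerivAt_sum_smul (0 : E3 →L[ℝ] E3) (fun i => fderiv ℝ (V i) x)
      (α := fun i => deriv (α i))
      (fun i => ((contDiff_infty_iff_deriv.mp (hαs i)).2).differentiable (by simp)) 0
    simp only [zero_add] at h2
    refine HasDerivAt.congr_deriv (f' := ∑ i, deriv (deriv (α i)) 0 • fderiv ℝ (V i) x) h2 ?_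
    have h4 : ∀ j, deriv (deriv (α (some (some j)))) 0 = 0 := by
      intro j
      rw [(hα2 j).2.deriv]
      simp [hb0]
    have h5 : (2 * ε ^ 2 * (1 / 2) : ℝ) = ε ^ 2 := by ring
    exact sum_opt2 (fun i => deriv (deriv (α i)) 0) (fun i => fderiv ℝ (V i) x) hα0.2.deriv
      (hα1.2.deriv.trans h5) h4

end Kusner.P
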